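import Pool.Agent.Y859.SF.Stm

/-!
# Project SF: `s` is at most `t (log m) ^ 3`
-/

set_option autoImplicit false

namespace Pool.Agent.Y748.SF

open Finset Pool.Agent.Y859.SF

theorem blk_fact {A B : ℕ} (h : A ≤ B) : B.factorial = A.factorial * blk A B := by
  induction B, h using Nat.le_induction with
  | base => simp [blk]
  | succ n hn ih =>
    have h1 : blk A (n + 1) = blk A n * (n + 1) := by
      unfold blk
      rw [Finset.prod_Ioc_succ_top (by omega)]
    rw [h1, Nat.factorial_succ, ih]
    ring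

theorem blk_ne {A B : ℕ} : blk A B ≠ 0 := by
  unfold blk
  rw [Finset.prod_ne_zero_iff]
  intro j hj
  rw [Finset.mem_Ioc] at hj
  omega

theorem even_of_sq {n : ℕ} (h : IsSquare n) (p : ℕ) : Even (n.factorization p) := by
  obtain ⟨r, rfl⟩ := h
  rcases Nat.eq_zero_or_pos r with h0 | h0
  · subst h0
    simp
  · rw [Nat.factorization_mul h0.ne' h0.ne']
    exact ⟨_, rfl⟩

theorem odd_tr {m b y y' p : ℕ} (h : Rep m b y y') (_hp : p.Prime)
    (ho : Odd ((blk y' y).factorization p)) : Odd ((blk b m).factorization p) := by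
  obtain ⟨h1, _, h3, h4⟩ := h
  have h5 := even_of_sq h4 p
  rw [blk_fact h3.le, blk_fact h1] at h5
  have e : b.factorial * blk b m * b.factorial * (y'.factorial * blk y' y) * y'.factorial =
      ((b.factorial * y'.factorial) * (b.factorial * y'.factorial)) * (blk b m * blk y' y) := by
    ring
  have hb : b.factorial * y'.factorial ≠ 0 :=
    mul_ne_zero (Nat.factorial_ne_zero _) (Nat.factorial_ne_zero _)
  rw [e, Nat.factorization_mul (mul_ne_zero hb hb) (mul_ne_zero blk_ne blk_ne),
    Nat.factorization_mul hb hb, Nat.factorization_mul blk_ne blk_ne] at h5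
  simp only [Finsupp.add_apply] at h5
  rw [Nat.even_iff] at h5
  rw [Nat.odd_iff] at ho ⊢
  omega

theorem t_S2 (he : S_ES) : S_S2 := by
  obtain ⟨c, hc, s₀, hs⟩ := he
  have hl2 : 0 < Real.log 2 := Real.log_pos (by norm_num)
  set L : ℝ := 1 + s₀ + 1 / (c * Real.log 2) with hL
  have hL1 : 1 ≤ L := by
    have : 0 ≤ 1 / (c * Real.log 2) := by positivity
    have h2 : (0 : ℝ) ≤ s₀ := Nat.cast_nonneg _
    linarith
  have hL2 : (s₀ : ℝ) ≤ L := by
    have : 0 ≤ 1 / (c * Real.log 2) := by positivity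
    linarith
  have hL3 : 1 / (c * Real.log 2) ≤ L := by
    have h2 : (0 : ℝ) ≤ s₀ := Nat.cast_nonneg _
    linarith
  refine ⟨⌈Real.exp L⌉₊, fun m hm b y y' hr => ?_⟩
  have hmR : Real.exp L ≤ m := (Nat.le_ceil _).trans (by exact_mod_cast hm)
  have hlm : L ≤ Real.log m := (Real.le_log_iff_exp_le ((Real.exp_pos L).trans_le hmR)).2 hmR
  have hlm1 : 1 ≤ Real.log m := hL1.trans hlm
  obtain ⟨h1, h2, h3, h4⟩ := hr
  set s := y - y' with hsd
  set t := m - b with htd
  have ht1 : 1 ≤ t := by omega
  have ht1R : (1 : ℝ) ≤ t := by exact_mod_cast ht1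
  have hcube : Real.log m ≤ Real.log m ^ 3 := by
    have : 0 ≤ Real.log m * (Real.log m ^ 2 - 1) := by
      apply mul_nonneg (by linarith)
      nlinarith
    nlinarith
  have hcube0 : 0 ≤ Real.log m ^ 3 := by positivity
  have hsmall : (s : ℝ) ≤ Real.log m → (s : ℝ) ≤ t * Real.log m ^ 3 := by
    intro h
    calc (s : ℝ) ≤ Real.log m ^ 3 := h.trans hcube
      _ = 1 * Real.log m ^ 3 := (one_mul _).symm
      _ ≤ t * Real.log m ^ 3 := mul_le_mul_of_nonneg_right ht1R hcube0
  by_cases hss : s < s₀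
  · apply hsmall
    have : (s : ℝ) ≤ s₀ := by exact_mod_cast hss.le
    linarith
  by_cases hs1 : s < 2
  · apply hsmall
    have : (s : ℝ) ≤ 1 := by exact_mod_cast (by omega : s ≤ 1)
    linarith
  push Not at hss hs1
  obtain ⟨P, hP, hcard⟩ := hs y' s hss
  have hy : y' + s = y := by omega
  rw [hy] at hP
  have hdvd : ∏ p ∈ P, p ∣ blk b m := by
    apply Finset.prod_primes_dvd
    · intro p hp
      exact (hP p hp).1.prime
    · intro p hp
      have h5 := odd_tr ⟨h1, h2, h3, h4⟩ (hP p hp).1 (hP p hp).2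
      apply Nat.dvd_of_factorization_pos
      intro h0
      rw [h0] at h5
      exact absurd h5 (by decide)
  have hle : 2 ^ P.card ≤ m ^ t := by
    calc 2 ^ P.card ≤ ∏ p ∈ P, p := by
          rw [← Finset.prod_const]
          exact Finset.prod_le_prod' fun p hp => (hP p hp).1.two_le
      _ ≤ blk b m := Nat.le_of_dvd (Nat.pos_of_ne_zero blk_ne) hdvd
      _ ≤ m ^ t := by
          unfold blk
          have h6 := Finset.prod_le_pow_card (Ioc b m) (fun j => j) m
            (fun j hj => (Finset.mem_Ioc.1 hj).2)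
          rwa [Nat.card_Ioc] at h6
  have hm0 : 0 < m := by omega
  have hlog : (P.card : ℝ) * Real.log 2 ≤ t * Real.log m := by
    have h7 : ((2 ^ P.card : ℕ) : ℝ) ≤ ((m ^ t : ℕ) : ℝ) := by exact_mod_cast hle
    push_cast at h7
    have h8 := Real.log_le_log (by positivity) h7
    rwa [Real.log_pow, Real.log_pow] at h8
  have hsR : (2 : ℝ) ≤ s := by exact_mod_cast hs1
  have hls : 0 < Real.log s := Real.log_pos (by linarith)
  have hsm : Real.log s ≤ Real.log m := by
    apply Real.log_le_log (by linarith)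
    exact_mod_cast (by omega : s ≤ m)
  have h9 : c * s ≤ P.card * Real.log m := by
    have h10 : c * s ≤ P.card * Real.log s := by
      rwa [div_le_iff₀ hls] at hcard
    exact h10.trans (mul_le_mul_of_nonneg_left hsm (Nat.cast_nonneg _))
  have h11 : c * Real.log 2 * s ≤ t * Real.log m ^ 2 := by
    calc c * Real.log 2 * s = (c * s) * Real.log 2 := by ring
      _ ≤ (P.card * Real.log m) * Real.log 2 := mul_le_mul_of_nonneg_right h9 hl2.le
      _ = (P.card * Real.log 2) * Real.log m := by ring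
      _ ≤ (t * Real.log m) * Real.log m := mul_le_mul_of_nonneg_right hlog (by linarith)
      _ = t * Real.log m ^ 2 := by ring
  have hcl : 0 < c * Real.log 2 := mul_pos hc hl2
  have h12 : 1 ≤ c * Real.log 2 * Real.log m := by
    have h13 : 1 / (c * Real.log 2) ≤ Real.log m := hL3.trans hlm
    rw [div_le_iff₀ hcl] at h13
    linarith
  have h14 : c * Real.log 2 * s ≤ c * Real.log 2 * (t * Real.log m ^ 3) := by
    calc c * Real.log 2 * s ≤ t * Real.log m ^ 2 := h11
      _ = 1 * (t * Real.log m ^ 2) := (one_mul _).symm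
      _ ≤ (c * Real.log 2 * Real.log m) * (t * Real.log m ^ 2) :=
          mul_le_mul_of_nonneg_right h12 (by positivity)
      _ = c * Real.log 2 * (t * Real.log m ^ 3) := by ring
  exact le_of_mul_le_mul_left h14 hcl

end Pool.Agent.Y748.SF
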